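import Mathlib

/-!
# MP_f18e63_co : a Mengerian system on seven points

The set system `ab, bc, de, fg, adf, bef, bdg, ceg` on the points `a, …, g` is Mengerian and does
not contain `𝒬` as a minor, but its Menger dual `bef, bdg, acdf, bcdf, abeg, aceg` does not have the
Menger property.
-/

namespace Pool.Agent.Results.MP_f18e63_co.SevenPoints

open Finset

section defs

variable {α : Type} [DecidableEq α]

/-- The inclusion-minimal blocks. -/
def minBlocks (F : Finset (Finset α)) : Finset (Finset α) :=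
  F.filter fun B => ∀ B' ∈ F, B' ⊆ B → B' = B

/-- The Menger dual of the set system `(S, F)`: the inclusion-minimal subsets of `S` that meet
every block of `minBlocks F`. -/
def mengerDual (S : Finset α) (F : Finset (Finset α)) : Finset (Finset α) :=
  minBlocks (S.powerset.filter fun C => ∀ B ∈ minBlocks F, (C ∩ B).Nonempty)

/-- The largest number of pairwise disjoint blocks of `minBlocks F`. -/
def nu (F : Finset (Finset α)) : ℕ :=
  ((minBlocks F).powerset.filter fun P => ∀ A ∈ P, ∀ B ∈ P, A ≠ B → Disjoint A B).sup Finset.card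

/-- The least cardinality of a block of the Menger dual. -/
noncomputable def tau (S : Finset α) (F : Finset (Finset α)) : ℕ :=
  sInf {n : ℕ | ∃ C ∈ mengerDual S F, C.card = n}

/-- The Menger property. By convention every system with the empty block has it. -/
def HasMenger (S : Finset α) (F : Finset (Finset α)) : Prop := ∅ ∈ F ∨ nu F = tau S F

/-- `(S, F)` is Mengerian: it has the empty block, or for every `c : S → ℕ` there is `f : F → ℕ`
with `∑_{B ∋ x} f B ≤ c x` for all points `x`, such that `∑_B f B` is the least of the sums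
`∑_{x ∈ C} c x`, `C` a block of the Menger dual. -/
def IsMengerian (S : Finset α) (F : Finset (Finset α)) : Prop :=
  ∅ ∈ F ∨ ∀ c : α → ℕ, ∃ f : Finset α → ℕ,
    (∀ x ∈ S, ∑ B ∈ F.filter (fun B => x ∈ B), f B ≤ c x) ∧
    IsLeast {n : ℕ | ∃ C ∈ mengerDual S F, n = ∑ x ∈ C, c x} (∑ B ∈ F, f B)

/-- One weak or strong point-restriction. -/
inductive Step : Finset α × Finset (Finset α) → Finset α × Finset (Finset α) → Prop
  | weak (S T : Finset α) (F : Finset (Finset α)) : T ⊆ S → Step (S, F) (S \ T, F.image (· \ T))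
  | strong (S T : Finset α) (F : Finset (Finset α)) :
      T ⊆ S → Step (S, F) (S \ T, F.filter (fun B => B ∩ T = ∅))

/-- `(S', F')` is a minor of `(S, F)`: it is reached by a sequence of point-restrictions. -/
def IsMinor (X Y : Finset α × Finset (Finset α)) : Prop := Relation.ReflTransGen Step X Y

/-- `(S, F)` contains the system `G` (on the points of the type `β`, each of which lies in a block)
as a minor: some minor of `(S, F)`, after discarding the non-minimal blocks, is the image of `G`
under a renaming of the points (points in no block are ignored). -/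
def ContainsMinor {β : Type} [DecidableEq β] (S : Finset α) (F : Finset (Finset α))
    (G : Finset (Finset β)) : Prop :=
  ∃ (S' : Finset α) (F' : Finset (Finset α)) (σ : β → α), IsMinor (S, F) (S', F') ∧
    Function.Injective σ ∧ minBlocks F' = G.image (Finset.image σ)

end defs

/-- Seymour's system `𝒬 = (abc, cde, bdf, aef, cf, be, ad)` on the points `a, …, f = 0, …, 5`. -/
def Q : Finset (Finset (Fin 6)) :=
  {{0, 1, 2}, {2, 3, 4}, {1, 3, 5}, {0, 4, 5}, {2, 5}, {1, 4}, {0, 3}}

/-- the system `ab, bc, de, fg, adf, bef, bdg, ceg` on `a, …, g = 0, …, 6` -/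
def F₀ : Finset (Finset (Fin 7)) :=
  {{0, 1}, {1, 2}, {3, 4}, {5, 6}, {0, 3, 5}, {1, 4, 5}, {1, 3, 6}, {2, 4, 6}}

/-- its Menger dual -/
def G₀ : Finset (Finset (Fin 7)) :=
  {{1, 4, 5}, {1, 3, 6}, {0, 2, 3, 5}, {1, 2, 3, 5}, {0, 1, 4, 6}, {0, 2, 4, 6}}

lemma dual_F : mengerDual univ F₀ = G₀ := by decide +kernel

lemma dual_G : mengerDual univ G₀ = F₀ := by decide +kernel

lemma nu_G : nu G₀ = 1 := by decide +kernel

lemma tau_G : tau univ G₀ = 2 := by
  unfold tau
  rw [dual_G]
  apply le_antisymm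
  · exact Nat.sInf_le ⟨{0, 1}, by decide, by decide⟩
  · apply le_csInf
    · exact ⟨_, {0, 1}, by decide, rfl⟩
    · rintro n ⟨C, hC, rfl⟩
      exact (by decide +kernel : ∀ C ∈ F₀, 2 ≤ C.card) C hC

lemma not_menger : ¬ HasMenger univ (mengerDual univ F₀) := by
  rw [dual_F]
  rintro (h | h)
  · exact absurd h (by decide)
  · rw [nu_G, tau_G] at h
    omega

section monotone

variable {α : Type} [DecidableEq α]

lemma exists_min {F : Finset (Finset α)} {B : Finset α} (hB : B ∈ F) :
    ∃ A ∈ minBlocks F, A ⊆ B := by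
  obtain ⟨A, hA, hmin⟩ := Finset.exists_minimal (s := F.filter (· ⊆ B))
    ⟨B, Finset.mem_filter.2 ⟨hB, Finset.Subset.refl B⟩⟩
  rw [Finset.mem_filter] at hA
  refine ⟨A, Finset.mem_filter.2 ⟨hA.1, ?_⟩, hA.2⟩
  intro B' hB' hsub
  exact Finset.Subset.antisymm hsub
    (hmin (Finset.mem_filter.2 ⟨hB', hsub.trans hA.2⟩) hsub)

lemma card_weak (F : Finset (Finset α)) (T : Finset α) :
    (minBlocks (F.image (· \ T))).card ≤ (minBlocks F).card := by
  have h : minBlocks (F.image (· \ T)) ⊆ (minBlocks F).image (· \ T) := by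
    intro A hA
    obtain ⟨hA1, hA2⟩ := Finset.mem_filter.1 hA
    obtain ⟨B0, hB0, rfl⟩ := Finset.mem_image.1 hA1
    obtain ⟨B, hB, hsub⟩ := exists_min hB0
    refine Finset.mem_image.2 ⟨B, hB, ?_⟩
    exact hA2 _ (Finset.mem_image_of_mem _ (Finset.mem_filter.1 hB).1)
      (Finset.sdiff_subset_sdiff hsub (Finset.Subset.refl _))
  exact (Finset.card_le_card h).trans Finset.card_image_le

lemma card_strong (F : Finset (Finset α)) (T : Finset α) :
    (minBlocks (F.filter (fun B => B ∩ T = ∅))).card ≤ (minBlocks F).card := by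
  apply Finset.card_le_card
  intro A hA
  obtain ⟨hA1, hA2⟩ := Finset.mem_filter.1 hA
  obtain ⟨hA3, hA4⟩ := Finset.mem_filter.1 hA1
  refine Finset.mem_filter.2 ⟨hA3, fun B hB hsub => hA2 B (Finset.mem_filter.2 ⟨hB, ?_⟩) hsub⟩
  apply Finset.subset_empty.1
  rw [← hA4]
  exact Finset.inter_subset_inter_right hsub

end monotone

lemma card_weak_one : ∀ x : Fin 7, (minBlocks (F₀.image (· \ {x}))).card ≤ 6 := by decide +kernel

lemma card_strong_one : ∀ x : Fin 7,
    (minBlocks (F₀.filter (fun B => B ∩ {x} = ∅))).card ≤ 6 := by decide +kernel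

lemma minor_form {Y : Finset (Fin 7) × Finset (Finset (Fin 7))} (h : IsMinor (univ, F₀) Y) :
    Y = (univ, F₀) ∨ (minBlocks Y.2).card ≤ 6 := by
  induction h with
  | refl => exact Or.inl rfl
  | @tail X Z h1 h2 ih =>
    cases h2 with
    | weak S T F hT =>
      rcases ih with ih | ih
      · obtain ⟨rfl, rfl⟩ := Prod.mk.inj ih
        rcases T.eq_empty_or_nonempty with rfl | ⟨x, hx⟩
        · left; simp
        · right
          have h3 : F₀.image (· \ T) = (F₀.image (· \ {x})).image (· \ T) := by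
            rw [Finset.image_image]
            apply Finset.image_congr
            intro B _
            ext y
            simp only [Function.comp, Finset.mem_sdiff, Finset.mem_singleton]
            constructor
            · rintro ⟨h4, h5⟩
              exact ⟨⟨h4, fun h6 => h5 (h6 ▸ hx)⟩, h5⟩
            · rintro ⟨⟨h4, -⟩, h5⟩
              exact ⟨h4, h5⟩
          simp only
          rw [h3]
          exact (card_weak _ _).trans (card_weak_one x)
      · right
        exact (card_weak _ _).trans ih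
    | strong S T F hT =>
      rcases ih with ih | ih
      · obtain ⟨rfl, rfl⟩ := Prod.mk.inj ih
        rcases T.eq_empty_or_nonempty with rfl | ⟨x, hx⟩
        · left; simp
        · right
          have h3 : F₀.filter (fun B => B ∩ T = ∅) =
              (F₀.filter (fun B => B ∩ {x} = ∅)).filter (fun B => B ∩ T = ∅) := by
            rw [Finset.filter_filter]
            apply Finset.filter_congr
            intro B _
            refine ⟨fun h4 => ⟨?_, h4⟩, fun h4 => h4.2⟩
            apply Finset.subset_empty.1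
            rw [← h4]
            exact Finset.inter_subset_inter_left (Finset.singleton_subset_iff.2 hx)
          simp only
          rw [h3]
          exact (card_strong _ _).trans (card_strong_one x)
      · right
        exact (card_strong _ _).trans ih

lemma no_minor : ¬ ContainsMinor univ F₀ Q := by
  rintro ⟨S', F', σ, hm, hσ, hQ⟩
  have h1 : (minBlocks F').card = 7 := by
    rw [hQ, Finset.card_image_of_injective _ (Finset.image_injective hσ)]
    decide
  rcases minor_form hm with h | h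
  · obtain ⟨-, rfl⟩ := Prod.mk.inj h
    have h2 : (minBlocks F₀).card = 8 := by decide +kernel
    omega
  · simp only at h
    omega

/-- the packing, for arbitrary weights of the seven points -/
lemma arith (a b c d e f g : ℕ) : ∃ x1 x2 x3 x4 y1 y2 y3 y4 : ℕ,
    x1 + y1 ≤ a ∧ x1 + x2 + y2 + y3 ≤ b ∧ x2 + y4 ≤ c ∧ x3 + y1 + y3 ≤ d ∧ x3 + y2 + y4 ≤ e ∧
    x4 + y1 + y2 ≤ f ∧ x4 + y3 + y4 ≤ g ∧
    (x1 + x2 + x3 + x4 + y1 + y2 + y3 + y4 = b + e + f ∨
      x1 + x2 + x3 + x4 + y1 + y2 + y3 + y4 = b + d + g ∨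
      x1 + x2 + x3 + x4 + y1 + y2 + y3 + y4 = a + c + d + f ∨
      x1 + x2 + x3 + x4 + y1 + y2 + y3 + y4 = b + c + d + f ∨
      x1 + x2 + x3 + x4 + y1 + y2 + y3 + y4 = a + b + e + g ∨
      x1 + x2 + x3 + x4 + y1 + y2 + y3 + y4 = a + c + e + g) := by
  rcases le_total d e with hde | hde <;> rcases le_total f g with hfg | hfg
  · -- `d = 0`, `f = 0`
    obtain ⟨m, hm⟩ : ∃ m, m = min c (min (e - d) (g - f)) := ⟨_, rfl⟩
    obtain ⟨u, hu⟩ : ∃ u, u = min b a := ⟨_, rfl⟩
    obtain ⟨v, hv⟩ : ∃ v, v = min (b - u) (c - m) := ⟨_, rfl⟩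
    refine ⟨u, v, d, f, 0, 0, 0, m, ?_, ?_, ?_, ?_, ?_, ?_, ?_, ?_⟩ <;> omega
  · -- `d = 0`, `g = 0`
    obtain ⟨m, hm⟩ : ∃ m, m = min b (min (e - d) (f - g)) := ⟨_, rfl⟩
    obtain ⟨u, hu⟩ : ∃ u, u = min (b - m) a := ⟨_, rfl⟩
    obtain ⟨v, hv⟩ : ∃ v, v = min (b - m - u) c := ⟨_, rfl⟩
    refine ⟨u, v, d, g, 0, m, 0, 0, ?_, ?_, ?_, ?_, ?_, ?_, ?_, ?_⟩ <;> omega
  · -- `e = 0`, `f = 0`
    obtain ⟨m, hm⟩ : ∃ m, m = min b (min (d - e) (g - f)) := ⟨_, rfl⟩
    obtain ⟨u, hu⟩ : ∃ u, u = min (b - m) a := ⟨_, rfl⟩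
    obtain ⟨v, hv⟩ : ∃ v, v = min (b - m - u) c := ⟨_, rfl⟩
    refine ⟨u, v, e, f, 0, 0, m, 0, ?_, ?_, ?_, ?_, ?_, ?_, ?_, ?_⟩ <;> omega
  · -- `e = 0`, `g = 0`
    obtain ⟨m, hm⟩ : ∃ m, m = min a (min (d - e) (f - g)) := ⟨_, rfl⟩
    obtain ⟨u, hu⟩ : ∃ u, u = min b (a - m) := ⟨_, rfl⟩
    obtain ⟨v, hv⟩ : ∃ v, v = min (b - u) c := ⟨_, rfl⟩
    refine ⟨u, v, e, g, m, 0, 0, 0, ?_, ?_, ?_, ?_, ?_, ?_, ?_, ?_⟩ <;> omega

/-- the packing as a function on the blocks -/
def pack (x1 x2 x3 x4 y1 y2 y3 y4 : ℕ) (B : Finset (Fin 7)) : ℕ :=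
  if B = {0, 1} then x1 else if B = {1, 2} then x2 else if B = {3, 4} then x3 else
  if B = {5, 6} then x4 else if B = {0, 3, 5} then y1 else if B = {1, 4, 5} then y2 else
  if B = {1, 3, 6} then y3 else if B = {2, 4, 6} then y4 else 0

section pack

variable (x1 x2 x3 x4 y1 y2 y3 y4 : ℕ)

lemma pack1 : pack x1 x2 x3 x4 y1 y2 y3 y4 {0, 1} = x1 := if_pos rfl

lemma pack2 : pack x1 x2 x3 x4 y1 y2 y3 y4 {1, 2} = x2 := by
  unfold pack; rw [if_neg (by decide), if_pos rfl]

lemma pack3 : pack x1 x2 x3 x4 y1 y2 y3 y4 {3, 4} = x3 := by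
  unfold pack; rw [if_neg (by decide), if_neg (by decide), if_pos rfl]

lemma pack4 : pack x1 x2 x3 x4 y1 y2 y3 y4 {5, 6} = x4 := by
  unfold pack; rw [if_neg (by decide), if_neg (by decide), if_neg (by decide), if_pos rfl]

lemma pack5 : pack x1 x2 x3 x4 y1 y2 y3 y4 {0, 3, 5} = y1 := by
  unfold pack
  rw [if_neg (by decide), if_neg (by decide), if_neg (by decide), if_neg (by decide), if_pos rfl]

lemma pack6 : pack x1 x2 x3 x4 y1 y2 y3 y4 {1, 4, 5} = y2 := by
  unfold pack
  rw [if_neg (by decide), if_neg (by decide), if_neg (by decide), if_neg (by decide),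
    if_neg (by decide), if_pos rfl]

lemma pack7 : pack x1 x2 x3 x4 y1 y2 y3 y4 {1, 3, 6} = y3 := by
  unfold pack
  rw [if_neg (by decide), if_neg (by decide), if_neg (by decide), if_neg (by decide),
    if_neg (by decide), if_neg (by decide), if_pos rfl]

lemma pack8 : pack x1 x2 x3 x4 y1 y2 y3 y4 {2, 4, 6} = y4 := by
  unfold pack
  rw [if_neg (by decide), if_neg (by decide), if_neg (by decide), if_neg (by decide),
    if_neg (by decide), if_neg (by decide), if_neg (by decide), if_pos rfl]

end pack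

lemma sum_F (f : Finset (Fin 7) → ℕ) : ∑ B ∈ F₀, f B = f {0, 1} + (f {1, 2} + (f {3, 4} +
    (f {5, 6} + (f {0, 3, 5} + (f {1, 4, 5} + (f {1, 3, 6} + f {2, 4, 6})))))) := by
  unfold F₀
  rw [Finset.sum_insert (by decide), Finset.sum_insert (by decide), Finset.sum_insert (by decide),
    Finset.sum_insert (by decide), Finset.sum_insert (by decide), Finset.sum_insert (by decide),
    Finset.sum_insert (by decide), Finset.sum_singleton]

lemma mengerian : IsMengerian univ F₀ := by
  right
  intro c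
  obtain ⟨x1, x2, x3, x4, y1, y2, y3, y4, h0, h1, h2, h3, h4, h5, h6, htot⟩ :=
    arith (c 0) (c 1) (c 2) (c 3) (c 4) (c 5) (c 6)
  have hsum := sum_F (pack x1 x2 x3 x4 y1 y2 y3 y4)
  rw [pack1, pack2, pack3, pack4, pack5, pack6, pack7, pack8] at hsum
  have e0 : F₀.filter (fun B => (0 : Fin 7) ∈ B) = {{0, 1}, {0, 3, 5}} := by decide +kernel
  have e1 : F₀.filter (fun B => (1 : Fin 7) ∈ B) = {{0, 1}, {1, 2}, {1, 4, 5}, {1, 3, 6}} := by
    decide +kernel
  have e2 : F₀.filter (fun B => (2 : Fin 7) ∈ B) = {{1, 2}, {2, 4, 6}} := by decide +kernel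
  have e3 : F₀.filter (fun B => (3 : Fin 7) ∈ B) = {{3, 4}, {0, 3, 5}, {1, 3, 6}} := by
    decide +kernel
  have e4 : F₀.filter (fun B => (4 : Fin 7) ∈ B) = {{3, 4}, {1, 4, 5}, {2, 4, 6}} := by
    decide +kernel
  have e5 : F₀.filter (fun B => (5 : Fin 7) ∈ B) = {{5, 6}, {0, 3, 5}, {1, 4, 5}} := by
    decide +kernel
  have e6 : F₀.filter (fun B => (6 : Fin 7) ∈ B) = {{5, 6}, {1, 3, 6}, {2, 4, 6}} := by
    decide +kernel
  refine ⟨pack x1 x2 x3 x4 y1 y2 y3 y4, ?_, ?_, ?_⟩
  · intro x _
    fin_cases x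
    · show ∑ B ∈ F₀.filter (fun B => (0 : Fin 7) ∈ B), _ ≤ c 0
      rw [e0, Finset.sum_pair (by decide), pack1, pack5]
      omega
    · show ∑ B ∈ F₀.filter (fun B => (1 : Fin 7) ∈ B), _ ≤ c 1
      rw [e1, Finset.sum_insert (by decide), Finset.sum_insert (by decide),
        Finset.sum_pair (by decide), pack1, pack2, pack6, pack7]
      omega
    · show ∑ B ∈ F₀.filter (fun B => (2 : Fin 7) ∈ B), _ ≤ c 2
      rw [e2, Finset.sum_pair (by decide), pack2, pack8]
      omega
    · show ∑ B ∈ F₀.filter (fun B => (3 : Fin 7) ∈ B), _ ≤ c 3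
      rw [e3, Finset.sum_insert (by decide), Finset.sum_pair (by decide), pack3, pack5, pack7]
      omega
    · show ∑ B ∈ F₀.filter (fun B => (4 : Fin 7) ∈ B), _ ≤ c 4
      rw [e4, Finset.sum_insert (by decide), Finset.sum_pair (by decide), pack3, pack6, pack8]
      omega
    · show ∑ B ∈ F₀.filter (fun B => (5 : Fin 7) ∈ B), _ ≤ c 5
      rw [e5, Finset.sum_insert (by decide), Finset.sum_pair (by decide), pack4, pack5, pack6]
      omega
    · show ∑ B ∈ F₀.filter (fun B => (6 : Fin 7) ∈ B), _ ≤ c 6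
      rw [e6, Finset.sum_insert (by decide), Finset.sum_pair (by decide), pack4, pack7, pack8]
      omega
  · show ∃ C ∈ mengerDual univ F₀, _ = ∑ x ∈ C, c x
    rw [dual_F, hsum]
    rcases htot with h | h | h | h | h | h
    · refine ⟨{1, 4, 5}, by decide, ?_⟩
      rw [Finset.sum_insert (by decide), Finset.sum_pair (by decide)]
      omega
    · refine ⟨{1, 3, 6}, by decide, ?_⟩
      rw [Finset.sum_insert (by decide), Finset.sum_pair (by decide)]
      omega
    · refine ⟨{0, 2, 3, 5}, by decide, ?_⟩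
      rw [Finset.sum_insert (by decide), Finset.sum_insert (by decide),
        Finset.sum_pair (by decide)]
      omega
    · refine ⟨{1, 2, 3, 5}, by decide, ?_⟩
      rw [Finset.sum_insert (by decide), Finset.sum_insert (by decide),
        Finset.sum_pair (by decide)]
      omega
    · refine ⟨{0, 1, 4, 6}, by decide, ?_⟩
      rw [Finset.sum_insert (by decide), Finset.sum_insert (by decide),
        Finset.sum_pair (by decide)]
      omega
    · refine ⟨{0, 2, 4, 6}, by decide, ?_⟩
      rw [Finset.sum_insert (by decide), Finset.sum_insert (by decide),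
        Finset.sum_pair (by decide)]
      omega
  · rintro n ⟨C, hC, rfl⟩
    rw [dual_F] at hC
    rw [hsum]
    unfold G₀ at hC
    simp only [Finset.mem_insert, Finset.mem_singleton] at hC
    rcases hC with rfl | rfl | rfl | rfl | rfl | rfl
    · rw [Finset.sum_insert (by decide), Finset.sum_pair (by decide)]
      omega
    · rw [Finset.sum_insert (by decide), Finset.sum_pair (by decide)]
      omega
    · rw [Finset.sum_insert (by decide), Finset.sum_insert (by decide),
        Finset.sum_pair (by decide)]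
      omega
    · rw [Finset.sum_insert (by decide), Finset.sum_insert (by decide),
        Finset.sum_pair (by decide)]
      omega
    · rw [Finset.sum_insert (by decide), Finset.sum_insert (by decide),
        Finset.sum_pair (by decide)]
      omega
    · rw [Finset.sum_insert (by decide), Finset.sum_insert (by decide),
        Finset.sum_pair (by decide)]
      omega

/-- The set system `F₀` on the seven points `Fin 7` is Mengerian and does not contain Seymour's
system `𝒬` as a minor, but its Menger dual `G₀` does not have the Menger property. -/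
theorem result : (∀ B ∈ F₀, B ⊆ (univ : Finset (Fin 7))) ∧
    IsMengerian univ F₀ ∧ ¬ ContainsMinor univ F₀ Q ∧ mengerDual univ F₀ = G₀ ∧
    ¬ HasMenger univ (mengerDual univ F₀) :=
  ⟨fun B _ => Finset.subset_univ B, mengerian, no_minor, dual_F, not_menger⟩

end Pool.Agent.Results.MP_f18e63_co.SevenPoints
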